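import Mathlib

set_option autoImplicit false

namespace Pool.Agent.Lib.MP_716709_gt

open Finset

/-- half of the sum over ordered pairs of distinct indices of the minima -/
noncomputable def pairSum {m : ℕ} (y : Fin m → ℝ) : ℝ :=
  (∑ i, ∑ k, if i = k then 0 else min (y i) (y k)) / 2

/-- the inequality on one half-line -/
theorem half_line {m : ℕ} (hm : 2 ≤ m) (y : Fin m → ℝ) (hy : ∀ i, 0 ≤ y i) (z : ℝ)
    (hz : 0 ≤ z) :
    ∃ i k : Fin m, i ≠ k ∧ ∃ G : ℝ, 0 ≤ G ∧ G ≤ z ∧ G ≤ min (y i) (y k) ∧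
      pairSum y - G ≤ 3 * (pairSum y + ∑ i, |z - y i| - ((m : ℝ) - 1) * z) := by
  classical
  have : Nonempty (Fin m) := ⟨⟨0, by omega⟩⟩
  obtain ⟨i, -, hi⟩ := exists_max_image (univ : Finset (Fin m)) y univ_nonempty
  have hne : (univ.erase i : Finset (Fin m)).Nonempty := by
    rw [← card_pos, card_erase_of_mem (mem_univ _), card_univ, Fintype.card_fin]; omega
  obtain ⟨k, hk, hk'⟩ := exists_max_image (univ.erase i) y hne
  have hik : i ≠ k := fun h => by simp [h] at hk
  have hi' : ∀ l, y l ≤ y i := fun l => hi l (mem_univ _)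
  have hk'' : ∀ l, l ≠ i → y l ≤ y k := fun l hl => hk' l (by simp [hl])
  set R : Finset (Fin m) := (univ.erase i).erase k with hR
  have hsplit : ∀ g : Fin m → ℝ, ∑ l, g l = g i + g k + ∑ l ∈ R, g l := by
    intro g
    rw [← add_sum_erase univ g (mem_univ i), ← add_sum_erase (univ.erase i) g hk]
    ring
  have hRm : ∀ l ∈ R, l ≠ i ∧ l ≠ k := by
    intro l hl
    simp only [hR, mem_erase, mem_univ, and_true] at hl
    exact ⟨hl.2, hl.1⟩
  set S : ℝ := ∑ l ∈ R, y l with hS
  have hS0 : 0 ≤ S := sum_nonneg fun l _ => hy l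
  have hcard : (R.card : ℝ) = m - 2 := by
    have h1 : R.card = m - 2 := by
      rw [hR, card_erase_of_mem hk, card_erase_of_mem (mem_univ _), card_univ,
        Fintype.card_fin]
      omega
    rw [h1, Nat.cast_sub hm]; norm_num
  -- lower bound of the pair sum
  have hA : y k + 2 * S ≤ pairSum y := by
    unfold pairSum
    have hrow : ∀ p : Fin m, 0 ≤ ∑ q, (if p = q then (0 : ℝ) else min (y p) (y q)) :=
      fun p => sum_nonneg fun q _ => by split_ifs; exact le_rfl; exact le_min (hy _) (hy _)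
    rw [hsplit (fun p => ∑ q, (if p = q then (0 : ℝ) else min (y p) (y q)))]
    have h1 : ∑ q, (if i = q then (0 : ℝ) else min (y i) (y q)) = y k + S := by
      rw [hsplit]
      rw [if_pos rfl, if_neg hik, min_eq_right (hi' k)]
      rw [sum_congr rfl (fun l hl => by
        rw [if_neg (Ne.symm (hRm l hl).1), min_eq_right (hi' l)])]
      ring
    have h2 : ∑ q, (if k = q then (0 : ℝ) else min (y k) (y q)) = y k + S := by
      rw [hsplit]
      rw [if_neg hik.symm, if_pos rfl, min_eq_left (hi' k)]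
      rw [sum_congr rfl (fun l hl => by
        rw [if_neg (Ne.symm (hRm l hl).2), min_eq_right (hk'' l (hRm l hl).1)])]
      ring
    have h3 : 2 * S ≤ ∑ l ∈ R, ∑ q, (if l = q then (0 : ℝ) else min (y l) (y q)) := by
      rw [hS, mul_sum]
      refine sum_le_sum fun l hl => ?_
      rw [hsplit]
      rw [if_neg (hRm l hl).1, if_neg (hRm l hl).2, min_eq_left (hi' l),
        min_eq_left (hk'' l (hRm l hl).1)]
      have : 0 ≤ ∑ q ∈ R, (if l = q then (0 : ℝ) else min (y l) (y q)) :=
        sum_nonneg fun q _ => by split_ifs; exact le_rfl; exact le_min (hy _) (hy _)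
      linarith
    rw [h1, h2]
    linarith
  have hB : ((m : ℝ) - 2) * z - S + |z - y i| + |z - y k| ≤ ∑ l, |z - y l| := by
    rw [hsplit]
    have : ((m : ℝ) - 2) * z - S ≤ ∑ l ∈ R, |z - y l| := by
      have h1 : ∑ l ∈ R, (z - y l) ≤ ∑ l ∈ R, |z - y l| :=
        sum_le_sum fun l _ => le_abs_self _
      rw [sum_sub_distrib, sum_const, nsmul_eq_mul, hcard] at h1
      exact h1
    linarith
  refine ⟨i, k, hik, max 0 (min z (y k) - S), le_max_left _ _, ?_, ?_, ?_⟩
  · exact max_le hz (by linarith [min_le_left z (y k)])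
  · refine max_le (le_min (hy _) (hy _)) (le_min ?_ ?_)
    · linarith [min_le_right z (y k), hi' k]
    · linarith [min_le_right z (y k)]
  · have hG := le_max_right 0 (min z (y k) - S)
    have h1 := abs_nonneg (z - y i)
    have h2 := le_abs_self (z - y k)
    have h3 := neg_le_abs (z - y k)
    rcases le_total z (y k) with h | h
    · rw [min_eq_left h] at hG ⊢
      nlinarith [h1, h2, h3]
    · rw [min_eq_right h] at hG ⊢
      nlinarith [h1, h2, h3]

end Pool.Agent.Lib.MP_716709_gt
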