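import Pool.Agent.Lib.MP_716709_gt.Core

set_option autoImplicit false

namespace Pool.Agent.Lib.MP_716709_gt

open Finset

theorem min_eq_half (a b : ℝ) : min a b = (a + b - |a - b|) / 2 := by
  rcases le_total a b with h | h
  · rw [min_eq_left h, abs_of_nonpos (by linarith)]; ring
  · rw [min_eq_right h, abs_of_nonneg (by linarith)]; ring

theorem sum_offdiag_const {m : ℕ} (c : ℝ) :
    (∑ i : Fin m, ∑ k : Fin m, if i = k then 0 else c) / 2 = (m : ℝ) * ((m : ℝ) - 1) / 2 * c := by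
  have h : ∀ i : Fin m, (∑ k : Fin m, if i = k then (0 : ℝ) else c) = ((m : ℝ) - 1) * c := by
    intro i
    have h1 : (∑ k : Fin m, if i = k then (0 : ℝ) else c) =
        ∑ k : Fin m, (c - if i = k then c else 0) := by
      refine sum_congr rfl fun k _ => ?_
      split_ifs <;> ring
    rw [h1, sum_sub_distrib, sum_const, card_univ, Fintype.card_fin, nsmul_eq_mul,
      sum_ite_eq univ i]
    simp
    ring
  rw [sum_congr rfl fun i _ => h i, sum_const, card_univ, Fintype.card_fin, nsmul_eq_mul]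
  ring

theorem core {m B : ℕ} (hm : 2 ≤ m) (hBm : B ≤ m) (ε : ℝ) (hε : 0 ≤ ε)
    (hεm : 100 * ε * m ≤ 1) {H : Type*} [Fintype H] (Y : Fin B → Fin m → H → ℝ)
    (Z : Fin B → H → ℝ) (hY0 : ∀ b i h, 0 ≤ Y b i h) (hZ0 : ∀ b h, 0 ≤ Z b h)
    (hY1 : ∀ b i, (m : ℝ) - 1 ≤ ∑ h, Y b i h)
    (hY2 : ∀ b i, ∑ h, Y b i h ≤ (1 + ε) * ((m : ℝ) - 1))
    (hYY1 : ∀ b i k, i ≠ k → 2 * ((m : ℝ) - 2) ≤ ∑ h, |Y b i h - Y b k h|)
    (hYY2 : ∀ b i k, i ≠ k → ∑ h, |Y b i h - Y b k h| ≤ (1 + ε) * (2 * ((m : ℝ) - 2)))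
    (hZ1 : ∀ b, (m : ℝ) * (m - 1) / 2 ≤ ∑ h, Z b h)
    (hZ2 : ∀ b, ∑ h, Z b h ≤ (1 + ε) * ((m : ℝ) * (m - 1) / 2))
    (hZY : ∀ b i, ∑ h, |Z b h - Y b i h| ≤ (1 + ε) * (((m : ℝ) - 1) * (m - 2) / 2))
    (hZZ : ∀ b b', b ≠ b' → (m : ℝ) * (m - 1) ≤ ∑ h, |Z b h - Z b' h|) :
    (B : ℝ) * m ^ 2 / 5 ≤ Fintype.card H := by
  classical
  have hm' : (2 : ℝ) ≤ m := by exact_mod_cast hm
  have hBm' : (B : ℝ) ≤ m := by exact_mod_cast hBm
  rcases Nat.eq_zero_or_pos B with hB0 | hB0
  · subst hB0; simp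
  have : Nonempty (Fin B) := ⟨⟨0, hB0⟩⟩
  have : Nonempty (Fin m) := ⟨⟨0, by omega⟩⟩
  have hB1 : (1 : ℝ) ≤ B := by exact_mod_cast hB0
  have hex := fun (b : Fin B) (h : H) =>
    half_line hm (fun i => Y b i h) (fun i => hY0 b i h) (Z b h) (hZ0 b h)
  choose I K hIK G hG0 hGZ hGmin hGA using hex
  set q : ℝ := (m : ℝ) * (m - 1) / 2 with hq
  have hq0 : 0 < q := by rw [hq]; nlinarith
  have hqm : (m : ℝ) ^ 2 / 4 ≤ q := by rw [hq]; nlinarith
  -- pair sums
  have hmin : ∀ b i k, i ≠ k → ∑ h, min (Y b i h) (Y b k h) =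
      (∑ h, Y b i h + ∑ h, Y b k h - ∑ h, |Y b i h - Y b k h|) / 2 := by
    intro b i k _
    rw [← sum_add_distrib, ← sum_sub_distrib, sum_div]
    exact sum_congr rfl fun h _ => min_eq_half _ _
  have hmin1 : ∀ b i k, i ≠ k → 1 - ε * (m - 2) ≤ ∑ h, min (Y b i h) (Y b k h) := by
    intro b i k hik
    rw [hmin b i k hik]
    linarith [hY1 b i, hY1 b k, hYY2 b i k hik]
  have hmin2 : ∀ b i k, i ≠ k → ∑ h, min (Y b i h) (Y b k h) ≤ 1 + ε * (m - 1) := by
    intro b i k hik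
    rw [hmin b i k hik]
    linarith [hY2 b i, hY2 b k, hYY1 b i k hik]
  have hA : ∀ b, ∑ h, pairSum (fun i => Y b i h) =
      (∑ i, ∑ k, if i = k then 0 else ∑ h, min (Y b i h) (Y b k h)) / 2 := by
    intro b
    unfold pairSum
    rw [← sum_div, sum_comm]
    congr 1
    refine sum_congr rfl fun i _ => ?_
    rw [sum_comm]
    refine sum_congr rfl fun k _ => ?_
    split_ifs with hik
    · simp
    · rfl
  have hA1 : ∀ b, q * (1 - ε * (m - 2)) ≤ ∑ h, pairSum (fun i => Y b i h) := by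
    intro b
    rw [hA, hq, ← sum_offdiag_const]
    refine div_le_div_of_nonneg_right ?_ (by norm_num)
    refine sum_le_sum fun i _ => sum_le_sum fun k _ => ?_
    split_ifs with hik
    · exact le_rfl
    · exact hmin1 b i k hik
  have hA2 : ∀ b, ∑ h, pairSum (fun i => Y b i h) ≤ q * (1 + ε * (m - 1)) := by
    intro b
    rw [hA, hq, ← sum_offdiag_const]
    refine div_le_div_of_nonneg_right ?_ (by norm_num)
    refine sum_le_sum fun i _ => sum_le_sum fun k _ => ?_
    split_ifs with hik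
    · exact le_rfl
    · exact hmin2 b i k hik
  -- total good mass in one block
  have hGb : ∀ b, q * (1 - ε * (m - 2)) - 3 * (q * (ε * (2 * m - 3))) ≤ ∑ h, G b h := by
    intro b
    have h1 : ∑ h : H, (pairSum (fun i => Y b i h) - G b h) ≤
        ∑ h : H, 3 * (pairSum (fun i => Y b i h) + ∑ i, |Z b h - Y b i h| - ((m : ℝ) - 1) * Z b h) :=
      sum_le_sum fun h _ => hGA b h
    rw [sum_sub_distrib, ← mul_sum, sum_sub_distrib, sum_add_distrib, ← mul_sum,
      sum_comm (s := (univ : Finset H)) (t := (univ : Finset (Fin m)))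
        (f := fun h i => |Z b h - Y b i h|)] at h1
    have h2 : ∑ i : Fin m, ∑ h : H, |Z b h - Y b i h| ≤
        ∑ _i : Fin m, (1 + ε) * (((m : ℝ) - 1) * (m - 2) / 2) := sum_le_sum fun i _ => hZY b i
    rw [sum_const, card_univ, Fintype.card_fin, nsmul_eq_mul] at h2
    have h3 := hA1 b
    have h4 := hA2 b
    have h5 : ((m : ℝ) - 1) * q ≤ ((m : ℝ) - 1) * ∑ h, Z b h :=
      mul_le_mul_of_nonneg_left (hZ1 b) (by linarith)
    have h6 : q * (1 + ε * (m - 1)) + m * ((1 + ε) * (((m : ℝ) - 1) * (m - 2) / 2)) -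
        ((m : ℝ) - 1) * q = q * (ε * (2 * m - 3)) := by rw [hq]; ring
    linarith
  -- overlaps
  have hZmin : ∀ b b', b ≠ b' → ∑ h, min (Z b h) (Z b' h) ≤ ε * q := by
    intro b b' hbb
    have : ∑ h, min (Z b h) (Z b' h) =
        (∑ h, Z b h + ∑ h, Z b' h - ∑ h, |Z b h - Z b' h|) / 2 := by
      rw [← sum_add_distrib, ← sum_sub_distrib, sum_div]
      exact sum_congr rfl fun h _ => min_eq_half _ _
    rw [this]
    have h1 := hZ2 b
    have h2 := hZ2 b'
    have h3 := hZZ b b' hbb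
    have h4 : (m : ℝ) * (m - 1) = 2 * q := by rw [hq]; ring
    rw [h4] at h3
    linarith
  -- top block
  have htop : ∀ h : H, ∃ b : Fin B, ∀ b', Z b' h ≤ Z b h := by
    intro h
    obtain ⟨b, -, hb⟩ := exists_max_image (univ : Finset (Fin B)) (fun b => Z b h) univ_nonempty
    exact ⟨b, fun b' => hb b' (mem_univ _)⟩
  choose T hT using htop
  have hoff : ∑ b, ∑ h, G b h ≤ ∑ h, G (T h) h +
      ∑ b : Fin B, ∑ b' : Fin B, (if b = b' then 0 else ε * q) := by
    have h1 : ∀ h, ∑ b, G b h ≤ G (T h) h +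
        ∑ b, ∑ b', (if b = b' then 0 else min (Z b h) (Z b' h)) := by
      intro h
      rw [← add_sum_erase univ (fun b => G b h) (mem_univ (T h))]
      have h2 : ∑ b ∈ univ.erase (T h), G b h ≤
          ∑ b ∈ univ.erase (T h), ∑ b', (if b = b' then 0 else min (Z b h) (Z b' h)) := by
        refine sum_le_sum fun b hb => ?_
        have hbT : b ≠ T h := by simpa using hb
        calc G b h ≤ (if b = T h then 0 else min (Z b h) (Z (T h) h)) := by
              rw [if_neg hbT]; exact le_min (hGZ b h) ((hGZ b h).trans (hT h b))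
          _ ≤ _ := single_le_sum (f := fun b' => if b = b' then 0 else min (Z b h) (Z b' h))
              (fun b' _ => by
                split_ifs
                · exact le_rfl
                · exact le_min (hZ0 _ _) (hZ0 _ _)) (mem_univ (T h))
      have h3 : ∑ b ∈ univ.erase (T h), ∑ b', (if b = b' then 0 else min (Z b h) (Z b' h)) ≤
          ∑ b, ∑ b', (if b = b' then 0 else min (Z b h) (Z b' h)) := by
        refine sum_le_sum_of_subset_of_nonneg (erase_subset _ _) fun b _ _ => ?_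
        exact sum_nonneg fun b' _ => by
          split_ifs
          · exact le_rfl
          · exact le_min (hZ0 _ _) (hZ0 _ _)
      linarith
    rw [sum_comm]
    refine (sum_le_sum fun h _ => h1 h).trans ?_
    rw [sum_add_distrib]
    refine add_le_add le_rfl ?_
    rw [sum_comm]
    refine sum_le_sum fun b _ => ?_
    rw [sum_comm]
    refine sum_le_sum fun b' _ => ?_
    split_ifs with hbb
    · simp
    · exact hZmin b b' hbb
  have hoff2 : ∑ b : Fin B, ∑ b' : Fin B, (if b = b' then 0 else ε * q) ≤ B * B * (ε * q) := by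
    have : ∑ b : Fin B, ∑ b' : Fin B, (if b = b' then 0 else ε * q) ≤
        ∑ _b : Fin B, ∑ _b' : Fin B, ε * q := by
      refine sum_le_sum fun b _ => sum_le_sum fun b' _ => ?_
      split_ifs
      · positivity
      · exact le_rfl
    refine this.trans ?_
    simp only [sum_const, card_univ, Fintype.card_fin, nsmul_eq_mul]
    linarith
  have hlow : (B : ℝ) * (q * (1 - ε * (m - 2)) - 3 * (q * (ε * (2 * m - 3)))) ≤
      ∑ b, ∑ h, G b h := by
    have : ∑ _b : Fin B, (q * (1 - ε * (m - 2)) - 3 * (q * (ε * (2 * m - 3)))) ≤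
        ∑ b, ∑ h, G b h := sum_le_sum fun b _ => hGb b
    rw [sum_const, card_univ, Fintype.card_fin, nsmul_eq_mul] at this
    exact this
  -- counting
  have hcount : ∑ h, G (T h) h ≤ (Fintype.card H : ℝ) * (1 + ε * (m - 1)) := by
    set φ : H → Fin B × Fin m × Fin m := fun h => (T h, I (T h) h, K (T h) h) with hφ
    set W : Fin B × Fin m × Fin m → H → ℝ := fun τ h => min (Y τ.1 τ.2.1 h) (Y τ.1 τ.2.2 h)
      with hW
    have h1 : ∑ h, G (T h) h ≤ ∑ h, W (φ h) h := sum_le_sum fun h _ => hGmin (T h) h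
    have h2 : ∑ h, W (φ h) h = ∑ τ ∈ univ.image φ, ∑ h ∈ univ.filter (fun h => φ h = τ),
        W (φ h) h :=
      (sum_fiberwise_of_maps_to (fun h _ => mem_image_of_mem φ (mem_univ h)) _).symm
    have h3 : ∀ τ ∈ univ.image φ, ∑ h ∈ univ.filter (fun h => φ h = τ), W (φ h) h ≤
        1 + ε * (m - 1) := by
      intro τ hτ
      obtain ⟨h0, -, rfl⟩ := mem_image.1 hτ
      calc ∑ h ∈ univ.filter (fun h => φ h = φ h0), W (φ h) h
          = ∑ h ∈ univ.filter (fun h => φ h = φ h0), W (φ h0) h := by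
            refine sum_congr rfl fun h hh => ?_
            rw [(mem_filter.1 hh).2]
        _ ≤ ∑ h, W (φ h0) h :=
            sum_le_sum_of_subset_of_nonneg (filter_subset _ _) fun h _ _ =>
              le_min (hY0 _ _ _) (hY0 _ _ _)
        _ ≤ 1 + ε * (m - 1) := hmin2 _ _ _ (hIK _ _)
    have h4 : ∑ τ ∈ univ.image φ, ∑ h ∈ univ.filter (fun h => φ h = τ), W (φ h) h ≤
        ∑ _τ ∈ univ.image φ, (1 + ε * ((m : ℝ) - 1)) := sum_le_sum h3
    rw [sum_const, nsmul_eq_mul] at h4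
    have h5 : ((univ.image φ).card : ℝ) ≤ Fintype.card H := by
      have : (univ.image φ).card ≤ Fintype.card H := card_image_le.trans (by rw [card_univ])
      exact_mod_cast this
    have h6 : 0 ≤ 1 + ε * ((m : ℝ) - 1) := by nlinarith
    calc ∑ h, G (T h) h ≤ ((univ.image φ).card : ℝ) * (1 + ε * (m - 1)) := by linarith
      _ ≤ _ := mul_le_mul_of_nonneg_right h5 h6
  have hε1 : ε * m ≤ 1 / 100 := by linarith
  have hBε : (B : ℝ) * (ε * q) ≤ q / 100 := by
    have : (B : ℝ) * ε ≤ 1 / 100 := by nlinarith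
    nlinarith
  have e1 : (B : ℝ) * (q * (9 / 10)) ≤
      B * (q * (1 - ε * (m - 2)) - 3 * (q * (ε * (2 * m - 3)))) := by
    refine mul_le_mul_of_nonneg_left ?_ (by linarith)
    have : q * (9 / 10) ≤ q * (1 - ε * (m - 2) - 3 * (ε * (2 * m - 3))) := by
      refine mul_le_mul_of_nonneg_left ?_ hq0.le
      nlinarith
    linarith
  have e2 : (B : ℝ) * B * (ε * q) ≤ B * (q / 100) := by
    have := mul_le_mul_of_nonneg_left hBε (by linarith : (0 : ℝ) ≤ B)
    linarith
  have e3 : (Fintype.card H : ℝ) * (1 + ε * (m - 1)) ≤ (Fintype.card H : ℝ) * (101 / 100) := by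
    refine mul_le_mul_of_nonneg_left ?_ (by positivity)
    nlinarith
  have e4 : (B : ℝ) * (m ^ 2 / 4) ≤ B * q := mul_le_mul_of_nonneg_left hqm (by linarith)
  nlinarith

end Pool.Agent.Lib.MP_716709_gt
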