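import Pool.Agent.Lib.MP_716709_gt.Points

set_option autoImplicit false

namespace Pool.Agent.Lib.MP_716709_gt

open Finset

variable {m B : ℕ}

/-- positive and negative part -/
noncomputable def pn (s : Bool) (a : ℝ) : ℝ := if s then max a 0 else max (-a) 0

theorem pn_nonneg (s : Bool) (a : ℝ) : 0 ≤ pn s a := by
  unfold pn; split_ifs <;> exact le_max_right _ _

theorem sum_pn_sub (a b : ℝ) : ∑ s : Bool, |pn s a - pn s b| = |a - b| := by
  simp only [Fintype.sum_bool, pn, if_true, Bool.false_eq_true, if_false]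
  rcases le_total a 0 with ha | ha <;> rcases le_total b 0 with hb | hb
  · rw [max_eq_right ha, max_eq_right hb, max_eq_left (by linarith), max_eq_left (by linarith)]
    rw [sub_zero, abs_zero, zero_add, ← abs_neg]; congr 1; ring
  · rw [max_eq_right ha, max_eq_left hb, max_eq_left (by linarith), max_eq_right (by linarith),
      abs_of_nonpos (by linarith), abs_of_nonneg (by linarith), abs_of_nonpos (by linarith)]
    ring
  · rw [max_eq_left ha, max_eq_right hb, max_eq_right (by linarith), max_eq_left (by linarith),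
      abs_of_nonneg (by linarith), abs_of_nonpos (by linarith), abs_of_nonneg (by linarith)]
    ring
  · rw [max_eq_left ha, max_eq_left hb, max_eq_right (by linarith), max_eq_right (by linarith)]
    simp

theorem sum_pn (a : ℝ) : ∑ s : Bool, pn s a = |a| := by
  have := sum_pn_sub a 0
  simp only [sub_zero] at this
  rw [← this]
  refine sum_congr rfl fun s _ => ?_
  have h0 : pn s 0 = 0 := by unfold pn; simp
  rw [h0, sub_zero, abs_of_nonneg (pn_nonneg s a)]

/-- the points `x_{b,i}` -/
noncomputable def px (b : Fin B) (i : Fin m) : L1 := vec (blk b (xi i))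

/-- the points `1_b` -/
noncomputable def pz (m : ℕ) {B : ℕ} (b : Fin B) : L1 := vec (blk b (one (m := m)))

/-- the origin -/
noncomputable def po (m B : ℕ) : L1 := vec (fun _ : Fin B × Fin m × Fin m => (0 : ℝ))

open Classical in
/-- the set of all points -/
noncomputable def pts (m B : ℕ) : Finset L1 :=
  insert (po m B) ((univ : Finset (Fin B)).image (pz m) ∪
    (univ : Finset (Fin B × Fin m)).image (fun p => px p.1 p.2))

theorem card_pts (m B : ℕ) : (pts m B).card ≤ 1 + B + B * m := by
  classical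
  unfold pts
  refine (card_insert_le _ _).trans ?_
  have h1 := card_union_le ((univ : Finset (Fin B)).image (pz m))
    ((univ : Finset (Fin B × Fin m)).image (fun p => px p.1 p.2))
  have h2 : ((univ : Finset (Fin B)).image (pz m)).card ≤ B :=
    card_image_le.trans (by simp)
  have h3 : ((univ : Finset (Fin B × Fin m)).image (fun p => px p.1 p.2)).card ≤ B * m :=
    card_image_le.trans (by simp)
  omega

theorem po_mem : po m B ∈ pts m B := by classical exact mem_insert_self _ _

theorem pz_mem (b : Fin B) : pz m b ∈ pts m B := by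
  classical
  refine mem_insert_of_mem (mem_union_left _ (mem_image_of_mem _ (mem_univ b)))

theorem px_mem (b : Fin B) (i : Fin m) : px b i ∈ pts m B := by
  classical
  refine mem_insert_of_mem (mem_union_right _ ?_)
  exact mem_image.2 ⟨(b, i), mem_univ _, rfl⟩

theorem dist_px_po (b : Fin B) (i : Fin m) : dist (px b i) (po m B) = (m : ℝ) - 1 := by
  rw [px, po, dist_vec, sum_blk_zero, sum_abs_xi]

theorem dist_pz_po (b : Fin B) : dist (pz m b) (po m B) = (m : ℝ) * (m - 1) / 2 := by
  rw [pz, po, dist_vec, sum_blk_zero, sum_abs_one]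

theorem dist_pz_px (b : Fin B) (i : Fin m) :
    dist (pz m b) (px b i) = ((m : ℝ) - 1) * (m - 2) / 2 := by
  rw [px, pz, dist_vec, sum_blk_sub, sum_one_sub_xi]

theorem dist_px_px (b : Fin B) {i k : Fin m} (hik : i ≠ k) :
    dist (px b i) (px b k) = 2 * ((m : ℝ) - 2) := by
  rw [px, px, dist_vec, sum_blk_sub, sum_xi_sub_xi hik]

theorem dist_pz_pz {b b' : Fin B} (hb : b ≠ b') :
    dist (pz m b) (pz m b') = (m : ℝ) * (m - 1) := by
  rw [pz, pz, dist_vec, sum_blk_sub' hb, sum_abs_one]; ring

theorem lower {N : ℕ} (hm : 2 ≤ m) (hBm : B ≤ m) (ε : ℝ) (hε : 0 ≤ ε) (hεm : 100 * ε * m ≤ 1)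
    (h : Embeds (pts m B) (1 + ε) N) : (B : ℝ) * m ^ 2 / 10 ≤ N := by
  obtain ⟨f, s, hs, hf⟩ := h
  set F : pts m B → Fin N → ℝ := fun p j => (f p j - f ⟨po m B, po_mem⟩ j) / s with hF
  have hd : ∀ p q, ∑ j, |F p j - F q j| = dist (f p) (f q) / s := by
    intro p q
    rw [PiLp.dist_eq_of_L1, sum_div]
    refine sum_congr rfl fun j _ => ?_
    rw [Real.dist_eq, hF]
    dsimp only
    rw [← sub_div, abs_div, abs_of_pos hs]
    congr 2; ring
  have hlo : ∀ p q, dist p q ≤ ∑ j, |F p j - F q j| := by
    intro p q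
    rw [hd, le_div_iff₀ hs]
    linarith [(hf p q).1]
  have hup : ∀ p q, ∑ j, |F p j - F q j| ≤ (1 + ε) * dist p q := by
    intro p q
    rw [hd, div_le_iff₀ hs]
    linarith [(hf p q).2]
  have hF0 : ∀ j, F ⟨po m B, po_mem⟩ j = 0 := fun j => by simp [hF]
  have hsum : ∀ p q, ∑ h : Fin N × Bool, |pn h.2 (F p h.1) - pn h.2 (F q h.1)| =
      ∑ j, |F p j - F q j| := by
    intro p q
    rw [Fintype.sum_prod_type]
    exact sum_congr rfl fun j _ => sum_pn_sub _ _
  have hsum0 : ∀ p, ∑ h : Fin N × Bool, pn h.2 (F p h.1) =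
      ∑ j, |F p j - F ⟨po m B, po_mem⟩ j| := by
    intro p
    rw [Fintype.sum_prod_type]
    refine sum_congr rfl fun j _ => ?_
    rw [hF0, sub_zero]
    exact sum_pn _
  have key := core hm hBm ε hε hεm (H := Fin N × Bool)
    (fun b i h => pn h.2 (F ⟨px b i, px_mem b i⟩ h.1))
    (fun b h => pn h.2 (F ⟨pz m b, pz_mem b⟩ h.1))
    (fun _ _ _ => pn_nonneg _ _) (fun _ _ => pn_nonneg _ _)
    (fun b i => by
      rw [hsum0]
      refine le_trans (le_of_eq ?_) (hlo _ _)
      exact (dist_px_po b i).symm)
    (fun b i => by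
      rw [hsum0]
      refine (hup _ _).trans (le_of_eq ?_)
      rw [Subtype.dist_eq, dist_px_po])
    (fun b i k hik => by
      rw [hsum]
      refine le_trans (le_of_eq ?_) (hlo _ _)
      exact (dist_px_px b hik).symm)
    (fun b i k hik => by
      rw [hsum]
      refine (hup _ _).trans (le_of_eq ?_)
      rw [Subtype.dist_eq, dist_px_px b hik])
    (fun b => by
      rw [hsum0]
      refine le_trans (le_of_eq ?_) (hlo _ _)
      exact (dist_pz_po b).symm)
    (fun b => by
      rw [hsum0]
      refine (hup _ _).trans (le_of_eq ?_)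
      rw [Subtype.dist_eq, dist_pz_po])
    (fun b i => by
      rw [hsum]
      refine (hup _ _).trans (le_of_eq ?_)
      rw [Subtype.dist_eq, dist_pz_px])
    (fun b b' hb => by
      rw [hsum]
      refine le_trans (le_of_eq ?_) (hlo _ _)
      exact (dist_pz_pz hb).symm)
  have hc : (Fintype.card (Fin N × Bool) : ℝ) = 2 * N := by
    rw [Fintype.card_prod, Fintype.card_fin, Fintype.card_bool]; push_cast; ring
  rw [hc] at key
  linarith

end Pool.Agent.Lib.MP_716709_gt
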