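import Pool.Agent.Lib.MP_716709_gt.Count

set_option autoImplicit false

namespace Pool.Agent.Lib.MP_716709_gt

open Finset

/-- The Banach space `ℓ₁` of absolutely summable real sequences. -/
abbrev L1 : Type := lp (fun _ : ℕ => ℝ) 1

/-- The space `ℓ₁^k`. -/
abbrev L1fin (k : ℕ) : Type := PiLp 1 (fun _ : Fin k => ℝ)

/-- `M ⊆ ℓ₁` embeds into `ℓ₁^k` with distortion at most `D`. -/
def Embeds (M : Finset L1) (D : ℝ) (k : ℕ) : Prop :=
  ∃ (f : M → L1fin k) (s : ℝ), 0 < s ∧ ∀ x y : M,
    s * dist x y ≤ dist (f x) (f y) ∧ dist (f x) (f y) ≤ s * D * dist x y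

/-- The least `k` such that `M` embeds into `ℓ₁^k` with distortion at most `D`. -/
noncomputable def dimD (M : Finset L1) (D : ℝ) : ℕ∞ := ⨅ (k : ℕ) (_ : Embeds M D k), (k : ℕ∞)

/-- The supremum of `dimD M D` over all `M ⊆ ℓ₁` with at most `n` points. -/
noncomputable def K (n : ℕ) (D : ℝ) : ℕ∞ := ⨆ (M : Finset L1) (_ : M.card ≤ n), dimD M D

/-- A finitely supported sequence as an element of `ℓ₁`. -/
noncomputable def toL1 {n : ℕ} (u : Fin n → ℝ) : L1 :=
  ⟨fun i => if h : i < n then u ⟨i, h⟩ else 0, by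
    refine memℓp_gen ?_
    refine summable_of_ne_finset_zero (s := range n) fun i hi => ?_
    have : ¬ i < n := by simpa using hi
    simp [this]⟩

theorem toL1_apply {n : ℕ} (u : Fin n → ℝ) (i : ℕ) :
    (toL1 u) i = if h : i < n then u ⟨i, h⟩ else 0 := rfl

theorem dist_toL1 {n : ℕ} (u v : Fin n → ℝ) : dist (toL1 u) (toL1 v) = ∑ i, |u i - v i| := by
  rw [dist_eq_norm, lp.norm_eq_tsum_rpow (by simp)]
  simp only [ENNReal.toReal_one, Real.rpow_one, ne_eq, one_ne_zero, not_false_eq_true, div_self]
  rw [tsum_eq_sum (s := range n)]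
  · rw [← Fin.sum_univ_eq_sum_range (fun i => ‖(toL1 u - toL1 v : L1) i‖) n]
    refine sum_congr rfl fun i _ => ?_
    rw [lp.coeFn_sub, Pi.sub_apply, toL1_apply, toL1_apply, Real.norm_eq_abs]
    simp
  · intro i hi
    have : ¬ i < n := by simpa using hi
    rw [lp.coeFn_sub, Pi.sub_apply, toL1_apply, toL1_apply]
    simp [this]

section general
variable {E : Type} [Fintype E]

/-- A function on a finite type as an element of `ℓ₁`. -/
noncomputable def vec (u : E → ℝ) : L1 := toL1 (fun i => u ((Fintype.equivFin E).symm i))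

theorem dist_vec (u v : E → ℝ) : dist (vec u) (vec v) = ∑ e, |u e - v e| := by
  rw [vec, vec, dist_toL1]
  exact (Fintype.equivFin E).symm.sum_comp (fun e => |u e - v e|)

end general

variable {m B : ℕ}

/-- block vectors -/
def blk (b : Fin B) (g : Fin m → Fin m → ℝ) : Fin B × Fin m × Fin m → ℝ :=
  fun e => if e.1 = b then g e.2.1 e.2.2 else 0

/-- the pairs containing `i`, with weight one half -/
noncomputable def xi (i : Fin m) : Fin m → Fin m → ℝ :=
  fun j k => if j = k then 0 else if j = i ∨ k = i then 1 / 2 else 0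

/-- all pairs, with weight one half -/
noncomputable def one : Fin m → Fin m → ℝ := fun j k => if j = k then 0 else 1 / 2

theorem sum_blk_sub (b : Fin B) (g g' : Fin m → Fin m → ℝ) :
    ∑ e, |blk b g e - blk b g' e| = ∑ j, ∑ k, |g j k - g' j k| := by
  rw [Fintype.sum_prod_type, sum_eq_single b]
  · rw [Fintype.sum_prod_type]
    simp [blk]
  · intro b' _ hb'
    simp [blk, hb']
  · simp

theorem sum_blk_sub' {b b' : Fin B} (hb : b ≠ b') (g g' : Fin m → Fin m → ℝ) :
    ∑ e, |blk b g e - blk b' g' e| = ∑ j, ∑ k, |g j k| + ∑ j, ∑ k, |g' j k| := by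
  have h1 : ∀ e : Fin B × Fin m × Fin m, |blk b g e - blk b' g' e| =
      |blk b g e - blk b (fun _ _ => 0) e| + |blk b' g' e - blk b' (fun _ _ => 0) e| := by
    intro e
    by_cases h : e.1 = b
    · have h' : e.1 ≠ b' := fun h2 => hb (h.symm.trans h2)
      simp [blk, h, hb]
    · by_cases h' : e.1 = b'
      · simp [blk, h', hb.symm]
      · simp [blk, h, h']
  rw [sum_congr rfl fun e _ => h1 e, sum_add_distrib, sum_blk_sub, sum_blk_sub]
  simp

theorem sum_blk_zero (b : Fin B) (g : Fin m → Fin m → ℝ) :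
    ∑ e, |blk b g e - 0| = ∑ j, ∑ k, |g j k| := by
  have := sum_blk_sub b g (fun _ _ => 0)
  simpa [blk] using this

theorem xi_eq (i j k : Fin m) : xi i j k =
    (if j = i then 1 / 2 else 0) + (if k = i then 1 / 2 else 0) -
      (if j = i then (if k = i then 1 else 0) else 0) := by
  unfold xi
  by_cases h1 : j = i <;> by_cases h2 : k = i
  · subst h1; subst h2; norm_num
  · subst h1
    have : j ≠ k := fun h => h2 h.symm
    simp [h2, this]
  · subst h2
    simp [h1]
  · simp [h1, h2]

theorem sum_xi (i : Fin m) : ∑ j, ∑ k, xi i j k = (m : ℝ) - 1 := by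
  simp only [xi_eq, sum_sub_distrib, sum_add_distrib]
  simp
  ring

theorem xi_nonneg (i j k : Fin m) : 0 ≤ xi i j k := by
  unfold xi; split_ifs <;> norm_num

theorem one_nonneg (j k : Fin m) : 0 ≤ (one j k : ℝ) := by
  unfold one; split_ifs <;> norm_num

theorem sum_abs_xi (i : Fin m) : ∑ j, ∑ k, |xi i j k| = (m : ℝ) - 1 := by
  rw [← sum_xi i]
  exact sum_congr rfl fun j _ => sum_congr rfl fun k _ => abs_of_nonneg (xi_nonneg i j k)

theorem sum_abs_one : ∑ j : Fin m, ∑ k : Fin m, |one j k| = (m : ℝ) * (m - 1) / 2 := by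
  have h := sum_offdiag_const (m := m) 1
  have h2 : ∑ j : Fin m, ∑ k : Fin m, |one j k| =
      (∑ i : Fin m, ∑ k : Fin m, if i = k then 0 else (1 : ℝ)) / 2 := by
    rw [sum_div]
    refine sum_congr rfl fun j _ => ?_
    rw [sum_div]
    refine sum_congr rfl fun k _ => ?_
    unfold one
    split_ifs <;> norm_num
  rw [h2, h]; ring

theorem sum_one_sub_xi (i : Fin m) :
    ∑ j, ∑ k, |one j k - xi i j k| = ((m : ℝ) - 1) * (m - 2) / 2 := by
  have h1 : ∀ j k : Fin m, |one j k - xi i j k| = |one j k| - |xi i j k| := by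
    intro j k
    rw [abs_of_nonneg (one_nonneg j k), abs_of_nonneg (xi_nonneg i j k)]
    refine abs_of_nonneg ?_
    unfold one xi
    split_ifs <;> norm_num
  simp only [h1, sum_sub_distrib, sum_abs_one, sum_abs_xi]
  ring

theorem sum_xi_sub_xi {i l : Fin m} (hil : i ≠ l) :
    ∑ j, ∑ k, |xi i j k - xi l j k| = 2 * ((m : ℝ) - 2) := by
  have h1 : ∀ j k : Fin m, |xi i j k - xi l j k| = xi i j k + xi l j k -
      ((if j = i then (if k = l then 1 else 0) else 0) +
        (if j = l then (if k = i then 1 else 0) else 0)) := by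
    intro j k
    unfold xi
    by_cases h0 : j = k
    · subst h0
      by_cases h1 : j = i
      · subst h1; simp [hil]
      · simp [h1]
    · by_cases h1 : j = i
      · subst h1
        by_cases h2 : k = l
        · subst h2; simp [h0]; norm_num
        · simp [h0, hil, h2]
      · by_cases h2 : j = l
        · subst h2
          by_cases h3 : k = i
          · subst h3; simp [h0]; norm_num
          · simp [h0, h1, h3]
        · by_cases h3 : k = i
          · subst h3; simp [h0, h2, hil]
          · by_cases h4 : k = l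
            · subst h4; simp [h0, h1, h3]
            · simp [h0, h1, h2, h3, h4]
  simp only [h1, sum_sub_distrib, sum_add_distrib, sum_xi]
  simp
  ring

end Pool.Agent.Lib.MP_716709_gt
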